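import Pool.Agent.Lib.MP_f5a5c1_co.Count

/-!
# Linear expansion from bounded reduced bandwidth

If `G` has no `K_{t,t}` subgraph and reduced bandwidth at most `b`, then every `r`-shallow minor
`H` of `G` has at most `c (r + 1) |V(H)|` edges, where `c` depends only on `t` and `b`.
-/

set_option autoImplicit false

open Pool.Agent.Lib.MP_f5a5c1_co

namespace Pool.Agent.Results.MP_f5a5c1_co.LinearExpansion

/-- Let `G` be a finite graph with no `K_{t,t}` subgraph and with reduced bandwidth at most `b`.
Then every `r`-shallow minor `H` of `G` satisfies `|E(H)| ≤ c (r + 1) |V(H)|` with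
`c = max(t,2) ((6 b + 1) (2 b + 2) + 2)`. -/
theorem result (t b r : ℕ) (V W : Type) [Fintype V] [Fintype W] (G : SimpleGraph V)
    (H : SimpleGraph W) (hG : (completeBipartiteGraph (Fin t) (Fin t)).Free G)
    (hb : ReducedBandwidthLE G b) (hH : IsShallowMinor r H G) :
    H.edgeSet.ncard ≤
      (max t 2 * ((6 * b + 1) * (2 * b + 2) + 2)) * (r + 1) * Fintype.card W :=
  edges_shallow_minor hG hb hH

end Pool.Agent.Results.MP_f5a5c1_co.LinearExpansion
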